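import Pool.Agent.W845.DH.Stm

/-! # DH-EW: random subsets -/

set_option autoImplicit false

namespace Pool.Agent.W554.DH

open Pool.Agent.W845.DH

open Classical in
theorem EW_insert {α : Type} (E : Finset α) (a : α) (ha : a ∉ E) (p : ℝ) (f : Finset α → ℝ) :
    EW (insert a E) p f = (1 - p) * EW E p f + p * EW E p (fun R => f (insert a R)) := by
  unfold EW
  rw [Finset.sum_powerset_insert ha, Finset.mul_sum, Finset.mul_sum,
    Finset.card_insert_of_notMem ha]
  congr 1
  · refine Finset.sum_congr rfl fun t ht => ?_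
    have h1 := Finset.card_le_card (Finset.mem_powerset.1 ht)
    rw [show E.card + 1 - t.card = (E.card - t.card) + 1 by omega, pow_succ]
    ring
  · refine Finset.sum_congr rfl fun t ht => ?_
    have h2 : a ∉ t := fun h => ha (Finset.mem_powerset.1 ht h)
    rw [Finset.card_insert_of_notMem h2, pow_succ,
      show E.card + 1 - (t.card + 1) = E.card - t.card by omega]
    ring

theorem EW_empty {α : Type} (p : ℝ) (f : Finset α → ℝ) : EW ∅ p f = f ∅ := by
  unfold EW
  simp

theorem EW_congr {α : Type} (E : Finset α) (p : ℝ) (f g : Finset α → ℝ)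
    (h : ∀ R ⊆ E, f R = g R) : EW E p f = EW E p g := by
  unfold EW
  refine Finset.sum_congr rfl fun t ht => ?_
  rw [h t (Finset.mem_powerset.1 ht)]

theorem EW_zero {α : Type} (E : Finset α) (p : ℝ) : EW E p (fun _ => 0) = 0 := by
  unfold EW
  simp

theorem EW_one {α : Type} (E : Finset α) (p : ℝ) : EW E p (fun _ => 1) = 1 := by
  classical
  induction E using Finset.induction_on with
  | empty => exact EW_empty p _
  | insert a E ha ih =>
    rw [EW_insert E a ha, ih]
    ring

theorem EW_mono {α : Type} (E : Finset α) (p : ℝ) (f g : Finset α → ℝ) (h0 : 0 ≤ p) (h1 : p ≤ 1)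
    (h : ∀ R ⊆ E, f R ≤ g R) : EW E p f ≤ EW E p g := by
  unfold EW
  refine Finset.sum_le_sum fun t ht => ?_
  apply mul_le_mul_of_nonneg_left (h t (Finset.mem_powerset.1 ht))
  exact mul_nonneg (pow_nonneg h0 _) (pow_nonneg (by linarith) _)

theorem EW_anti {α : Type} (E : Finset α) (p p' : ℝ) (h0 : 0 ≤ p) (hp : p ≤ p')
    (h1 : p' ≤ 1) : ∀ f : Finset α → ℝ, (∀ R R', R ⊆ R' → R' ⊆ E → f R' ≤ f R) →
      EW E p' f ≤ EW E p f := by
  classical
  induction E using Finset.induction_on with
  | empty =>
    intro f _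
    rw [EW_empty, EW_empty]
  | insert a E ha ih =>
    intro f hf
    rw [EW_insert E a ha, EW_insert E a ha]
    have i0 := ih f (fun R R' h h' => hf R R' h (h'.trans (Finset.subset_insert a E)))
    have i1 := ih (fun R => f (insert a R)) (fun R R' h h' =>
      hf _ _ (Finset.insert_subset_insert a h) (Finset.insert_subset_insert a h'))
    have i2 : EW E p' (fun R => f (insert a R)) ≤ EW E p' f :=
      EW_mono E p' _ _ (h0.trans hp) h1 (fun R hR =>
        hf _ _ (Finset.subset_insert a R) (Finset.insert_subset_insert a hR))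
    nlinarith [mul_le_mul_of_nonneg_left i0 (by linarith : (0 : ℝ) ≤ 1 - p),
      mul_le_mul_of_nonneg_left i1 h0, mul_le_mul_of_nonneg_left i2 (by linarith : (0 : ℝ) ≤ p' - p)]

open Classical in
theorem EW_mem {α : Type} (E : Finset α) (p : ℝ) (e : α) (he : e ∈ E) :
    EW E p (fun R => if e ∈ R then 1 else 0) = p := by
  rw [← Finset.insert_erase he, EW_insert _ _ (Finset.notMem_erase e E),
    EW_congr (E.erase e) p (fun R => if e ∈ R then 1 else 0) (fun _ => 0) (fun R hR =>
      if_neg (fun h => Finset.notMem_erase e E (hR h))),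
    EW_congr (E.erase e) p (fun R => if e ∈ insert e R then 1 else 0) (fun _ => 1) (fun R _ =>
      if_pos (Finset.mem_insert_self e R)), EW_zero, EW_one]
  ring

open Classical in
theorem EW_mem2 {α : Type} (E : Finset α) (p : ℝ) (e e' : α) (he : e ∈ E) (he' : e' ∈ E)
    (hne : e ≠ e') : EW E p (fun R => if e ∈ R ∧ e' ∈ R then 1 else 0) = p ^ 2 := by
  rw [← Finset.insert_erase he, EW_insert _ _ (Finset.notMem_erase e E),
    EW_congr (E.erase e) p (fun R => if e ∈ R ∧ e' ∈ R then 1 else 0) (fun _ => 0) (fun R hR =>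
      if_neg (fun h => Finset.notMem_erase e E (hR h.1))),
    EW_congr (E.erase e) p (fun R => if e ∈ insert e R ∧ e' ∈ insert e R then 1 else 0)
      (fun R => if e' ∈ R then 1 else 0) (fun R _ => by
        simp [Finset.mem_insert, Ne.symm hne]),
    EW_zero, EW_mem _ p e' (Finset.mem_erase.2 ⟨Ne.symm hne, he'⟩)]
  ring

theorem ew : S_EW := by
  classical
  refine ⟨fun α E p => EW_one E p, fun α E p f g h0 h1 h => EW_mono E p f g h0 h1 h,
    fun α E p p' f h0 hp h1 h => EW_anti E p p' h0 hp h1 f h, fun α E p e he => ?_,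
    fun α E p e e' he he' hne => ?_⟩
  · exact EW_mem E p e he
  · exact EW_mem2 E p e e' he he' hne

end Pool.Agent.W554.DH
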